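import Pool.Agent.H25.Wei1

set_option autoImplicit false
open Cardinal Pool.Agent.H25.Wei

namespace Pool.Agent.Results.MP_62990a_lc.Yes

theorem result : (∀ D : Set Deg, (∀ a, ∃ b ∈ D, Deg.Le a b) → #D = 2 ^ continuum) ∧
    ∀ S : Set Problem, (∀ f, ∃ g ∈ S, WRed f g) → #S = 2 ^ continuum :=
  ⟨fun D h => (mk_image_eq (s := D) (f := Quot.out) fun a b e => by
    rw [← Quot.out_eq a, e, Quot.out_eq]).symm.trans (cof _ fun f =>
      let ⟨b, b1, b2⟩ := h (Quot.mk _ f)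
      ⟨_, ⟨b, b1, rfl⟩, b2 _ _ rfl (Quot.out_eq b)⟩), cof⟩

end Pool.Agent.Results.MP_62990a_lc.Yes
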